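import Mathlib

/-!
# Reach of five links of lengths 1, b, 1, b, 1 with b = 21/20 (MP_e0fe99_lc)

Four Radon relations between six consecutive vertices give `‖v6 - v1‖ ≤ 41/20`.
-/

set_option autoImplicit false

namespace Pool.Agent.Helper68.R205

variable {V : Type*} [NormedAddCommGroup V] [InnerProductSpace ℝ V]

theorem half5 (v1 v2 v3 v4 v5 v6 : V)
    (h12 : ‖v1 - v2‖ = 1) (h23 : ‖v3 - v2‖ = 21 / 20) (h34 : ‖v4 - v3‖ = 1)
    (h56 : ‖v6 - v5‖ = 1)
    (hr : ∃ α β τ : ℝ, 0 ≤ α ∧ 0 ≤ β ∧ α + β ≤ 1 ∧ 0 ≤ τ ∧ τ ≤ 1 ∧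
      v5 + τ • (v6 - v5) = v2 + α • (v1 - v2) + β • (v3 - v2))
    (hp5 : ∃ s e4 e5 : ℝ, 0 ≤ s ∧ s ≤ 1 ∧ 0 ≤ e4 ∧ 0 ≤ e5 ∧ e4 + e5 ≤ 1 ∧
      v2 + s • (v1 - v2) = v3 + e4 • (v4 - v3) + e5 • (v5 - v3)) :
    ‖v6 - v1‖ ≤ 2 ∨ (0 ≤ inner ℝ (v1 - v2) (v3 - v2) ∧
      (9 / 20 ≤ ‖v5 - v2‖ → 9 / 40 ≤ inner ℝ (v1 - v2) (v3 - v2))) := by
  obtain ⟨α, β, τ, hα, hβ, hab, hτ, hτ1, hr⟩ := hr
  obtain ⟨s, e4, e5, hs, -, he4, he5, hee, hp⟩ := hp5
  rcases eq_or_lt_of_le (show α ≤ 1 by linarith) with h1 | h1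
  · left
    have hβ0 : β = 0 := by linarith
    have h2 : v6 - v1 = (1 - τ) • (v6 - v5) := by
      rw [h1, hβ0, one_smul, zero_smul, add_zero] at hr
      have h3 : v1 = v5 + τ • (v6 - v5) := by rw [hr]; abel
      rw [h3, sub_smul, one_smul]; abel
    rw [h2, norm_smul, h56, mul_one, Real.norm_eq_abs, abs_of_nonneg (by linarith)]
    linarith
  · obtain ⟨t, ht⟩ : ∃ t, t = β / (1 - α) := ⟨_, rfl⟩
    have h1a : 0 < 1 - α := by linarith
    have ht0 : 0 ≤ t := by rw [ht]; positivity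
    have ht1 : t ≤ 1 := by rw [ht, div_le_one h1a]; linarith
    have hβt : β = (1 - α) * t := by rw [ht]; field_simp
    by_cases hc : t * (21 / 20) ≤ ‖v5 - (v2 + t • (v3 - v2))‖
    · left
      obtain ⟨y, hy⟩ : ∃ y, y = v2 + t • (v3 - v2) := ⟨_, rfl⟩
      rw [← hy] at hc
      have e1 : v6 - v1 = (1 - α) • (y - v1) + (1 - τ) • (v6 - v5) := by
        have e2 : v5 + τ • (v6 - v5) = v1 + (1 - α) • (y - v1) := by
          rw [hr, hy, hβt]; module
        have e3 : v6 = (v5 + τ • (v6 - v5)) + (1 - τ) • (v6 - v5) := by module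
        nth_rewrite 1 [e3]
        rw [e2]; abel
      have e4' : v5 - y = α • (v1 - y) - τ • (v6 - v5) := by
        have e2 : v5 + τ • (v6 - v5) = y + α • (v1 - y) := by
          rw [hr, hy, hβt]; module
        have e3 : v5 = (v5 + τ • (v6 - v5)) - τ • (v6 - v5) := by abel
        nth_rewrite 1 [e3]
        rw [e2]; abel
      have n1 : ‖v6 - v1‖ ≤ (1 - α) * ‖y - v1‖ + (1 - τ) := by
        rw [e1]
        refine (norm_add_le _ _).trans ?_
        rw [norm_smul, norm_smul, h56, mul_one, Real.norm_eq_abs, Real.norm_eq_abs,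
          abs_of_nonneg h1a.le, abs_of_nonneg (by linarith)]
      have n2 : ‖v5 - y‖ ≤ α * ‖y - v1‖ + τ := by
        rw [e4']
        refine (norm_sub_le _ _).trans ?_
        rw [norm_smul, norm_smul, h56, mul_one, Real.norm_eq_abs, Real.norm_eq_abs,
          abs_of_nonneg hα, abs_of_nonneg hτ, norm_sub_rev v1 y]
      have n3 : ‖y - v1‖ ≤ 1 + t * (21 / 20) := by
        have e5' : y - v1 = -(v1 - v2) + t • (v3 - v2) := by rw [hy]; abel
        rw [e5']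
        refine (norm_add_le _ _).trans ?_
        rw [norm_neg, h12, norm_smul, h23, Real.norm_eq_abs, abs_of_nonneg ht0]
      linarith
    · right
      rw [not_le] at hc
      obtain ⟨w, hw⟩ : ∃ w, w = v5 - v2 := ⟨_, rfl⟩
      obtain ⟨a, ha⟩ : ∃ a, a = v3 - v2 := ⟨_, rfl⟩
      obtain ⟨u, hu⟩ : ∃ u, u = v4 - v2 := ⟨_, rfl⟩
      obtain ⟨n, hn⟩ : ∃ n, n = v1 - v2 := ⟨_, rfl⟩
      have hc1 : ‖w - t • a‖ < t * (21 / 20) := by
        have : v5 - (v2 + t • (v3 - v2)) = w - t • a := by rw [hw, ha]; abel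
        rwa [this] at hc
      have na : ‖a‖ = 21 / 20 := by rw [ha]; exact h23
      have nn : ‖n‖ = 1 := by rw [hn]; exact h12
      have haa : inner ℝ a a = 441 / 400 := by rw [real_inner_self_eq_norm_sq, na]; norm_num
      have hwa : 0 < inner ℝ w a ∧ ‖w‖ ^ 2 ≤ 2 * inner ℝ w a := by
        have h3 : ‖w - t • a‖ ^ 2 < (t * (21 / 20)) ^ 2 := by
          have := norm_nonneg (w - t • a)
          nlinarith
        rw [@norm_sub_sq_real, norm_smul, na, Real.norm_eq_abs, abs_of_nonneg ht0,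
          real_inner_smul_right] at h3
        have h4 : 0 < t * inner ℝ w a := by nlinarith [sq_nonneg ‖w‖]
        have h5 : 0 < inner ℝ w a :=
          (pos_iff_pos_of_mul_pos h4).1 (lt_of_le_of_ne ht0 (by rintro rfl; simp at h4))
        refine ⟨h5, ?_⟩
        have h6 : t * inner ℝ w a ≤ inner ℝ w a := by nlinarith
        linarith
      obtain ⟨hwa, hwa2⟩ := hwa
      have hua : ‖u‖ ^ 2 + 41 / 400 = 2 * inner ℝ u a := by
        have h3 : ‖u - a‖ = 1 := by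
          have : u - a = v4 - v3 := by rw [hu, ha]; abel
          rw [this]; exact h34
        have h4 : ‖u - a‖ ^ 2 = 1 := by rw [h3]; norm_num
        rw [@norm_sub_sq_real, na] at h4
        linarith
      have hu0 : 0 < inner ℝ u a := by nlinarith [sq_nonneg ‖u‖]
      have hu1 : 9 / 40 * ‖u‖ ≤ inner ℝ u a := by nlinarith [sq_nonneg (‖u‖ - 9 / 40)]
      have key : s • n = (1 - e4 - e5) • a + e4 • u + e5 • w := by
        have e1 : s • n = (v2 + s • (v1 - v2)) - v2 := by rw [hn]; abel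
        rw [e1, hp, ha, hu, hw]; module
      have k2 : s * inner ℝ n a =
          (1 - e4 - e5) * (441 / 400) + e4 * inner ℝ u a + e5 * inner ℝ w a := by
        rw [← real_inner_smul_left, key, inner_add_left, inner_add_left, real_inner_smul_left,
          real_inner_smul_left, real_inner_smul_left, haa]
      have k3 : s ≤ (1 - e4 - e5) * (21 / 20) + e4 * ‖u‖ + e5 * ‖w‖ := by
        have h3 : ‖s • n‖ = s := by
          rw [norm_smul, nn, mul_one, Real.norm_eq_abs, abs_of_nonneg hs]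
        rw [← h3, key]
        refine (norm_add₃_le).trans ?_
        rw [norm_smul, norm_smul, norm_smul, na, Real.norm_eq_abs, Real.norm_eq_abs,
          Real.norm_eq_abs, abs_of_nonneg he4, abs_of_nonneg he5,
          abs_of_nonneg (by linarith : 0 ≤ 1 - e4 - e5)]
      have hs0 : 0 < s := by
        rcases eq_or_lt_of_le hs with h | h
        · exfalso
          rw [← h, zero_mul] at k2
          have h6 : 0 ≤ (1 - e4 - e5) * (441 / 400) := by
            have : 0 ≤ 1 - e4 - e5 := by linarith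
            positivity
          have h7 : 0 ≤ e4 * inner ℝ u a := by positivity
          have h8 : 0 ≤ e5 * inner ℝ w a := by positivity
          have z1 : (1 - e4 - e5) * (441 / 400) = 0 := by linarith
          have z2 : e4 * inner ℝ u a = 0 := by linarith
          have z3 : e5 * inner ℝ w a = 0 := by linarith
          have z4 : e4 = 0 := by
            rcases mul_eq_zero.1 z2 with h | h
            · exact h
            · exact absurd h hu0.ne'
          have z5 : e5 = 0 := by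
            rcases mul_eq_zero.1 z3 with h | h
            · exact h
            · exact absurd h hwa.ne'
          rw [z4, z5] at z1
          norm_num at z1
        · exact h
      rw [← hn, ← ha]
      have h30 : 0 ≤ 1 - e4 - e5 := by linarith
      have h7 : 0 ≤ e4 * inner ℝ u a := by positivity
      have h8 : 0 ≤ e5 * inner ℝ w a := by positivity
      refine ⟨?_, fun hw9 => ?_⟩
      · have h9 : 0 ≤ s * inner ℝ n a := by rw [k2]; nlinarith
        exact nonneg_of_mul_nonneg_right h9 hs0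
      · have hw9' : 9 / 20 ≤ ‖w‖ := by rw [hw]; exact hw9
        have hw2 : 9 / 40 * ‖w‖ ≤ inner ℝ w a := by nlinarith
        have h9 : 9 / 40 * s ≤ s * inner ℝ n a := by
          rw [k2]
          have q1 : e4 * (9 / 40 * ‖u‖) ≤ e4 * inner ℝ u a := mul_le_mul_of_nonneg_left hu1 he4
          have q2 : e5 * (9 / 40 * ‖w‖) ≤ e5 * inner ℝ w a := mul_le_mul_of_nonneg_left hw2 he5
          nlinarith
        have h10 : 0 ≤ s * (inner ℝ n a - 9 / 40) := by linarith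
        have := nonneg_of_mul_nonneg_right h10 hs0
        linarith

/-- One of the two estimates of the square of the reach. -/
theorem est (n a m c w : V) (α β τ α' β' σ : ℝ)
    (nn : inner ℝ n n = 1) (aa : inner ℝ a a = 441 / 400) (mm : inner ℝ m m = 1)
    (hr : w + τ • m = α • n + β • a) (hp : σ • n = w + α' • m + β' • c) :
    ‖w + m - n‖ ^ 2 = (1 - α) ^ 2 + 441 / 400 * β ^ 2 - 2 * (1 - α) * (β * inner ℝ n a)
      + (1 - τ) * (1 + τ - 2 * α' - 2 * (β' * inner ℝ m c) - 2 * (1 - σ) * inner ℝ n m) := by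
  have hD : w + m - n = β • a + (1 - τ) • m - (1 - α) • n := by
    have e1 : w = α • n + β • a - τ • m := by rw [← hr]; abel
    rw [e1]; module
  have hw : β • a = (σ - α) • n + (τ - α') • m - β' • c := by
    have e1 : β • a = w + τ • m - α • n := by rw [hr]; abel
    have e2 : w = σ • n - α' • m - β' • c := by rw [hp]; abel
    rw [e1, e2]; module
  have ham : β * inner ℝ a m =
      (σ - α) * inner ℝ n m + (τ - α') - β' * inner ℝ m c := by
    rw [← real_inner_smul_left, hw, inner_sub_left, inner_add_left, real_inner_smul_left,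
      real_inner_smul_left, real_inner_smul_left, mm, real_inner_comm c m]
    ring
  have hsq : ‖w + m - n‖ ^ 2 =
      (1 - α) ^ 2 + 441 / 400 * β ^ 2 + (1 - τ) ^ 2 - 2 * (1 - α) * (β * inner ℝ n a)
      - 2 * (1 - α) * (1 - τ) * inner ℝ n m + 2 * (1 - τ) * (β * inner ℝ a m) := by
    rw [← real_inner_self_eq_norm_sq, hD]
    simp only [inner_sub_left, inner_sub_right, inner_add_left, inner_add_right,
      real_inner_smul_left, real_inner_smul_right, nn, aa, mm]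
    rw [real_inner_comm n a, real_inner_comm n m, real_inner_comm m a]
    ring
  rw [hsq, ham]; ring

/-- The arithmetic of the large case. -/
theorem arith_large (α β τ α' β' σ p q μ : ℝ) (hα : 0 ≤ α) (hβ : 0 ≤ β) (hab : α + β ≤ 1)
    (hτ : 0 ≤ τ) (hτ1 : τ ≤ 1) (hα' : 0 ≤ α') (hβ' : 0 ≤ β') (hab' : α' + β' ≤ 1)
    (hσ : 0 ≤ σ) (hσ1 : σ ≤ 1) (hp : 9 / 40 ≤ p) (hq : 9 / 40 ≤ q) (hμ : -1 ≤ μ) :
    (1 - α) ^ 2 + 441 / 400 * β ^ 2 - 2 * (1 - α) * (β * p)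
      + (1 - τ) * (1 + τ - 2 * α' - 2 * (β' * q) - 2 * (1 - σ) * μ)
      ≤ 4 - α + β * (441 / 400 - 9 / 20) - 2 * α' - 9 / 20 * β' := by
  have h1a : 0 ≤ 1 - α := by linarith
  have A0 : (1 - α) * (β * (9 / 40)) ≤ (1 - α) * (β * p) :=
    mul_le_mul_of_nonneg_left (mul_le_mul_of_nonneg_left hp hβ) h1a
  have A1 : (1 - α) ^ 2 + 441 / 400 * β ^ 2 - 2 * (1 - α) * (β * p)
      ≤ 1 - α + β * (441 / 400 - 9 / 20) := by
    have q1 : α * β ≤ α * (1 - α) := mul_le_mul_of_nonneg_left (by linarith) hα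
    have q2 : β * α ≤ β * (1 - β) := mul_le_mul_of_nonneg_left (by linarith) hβ
    have q3 : 0 ≤ α * β := mul_nonneg hα hβ
    nlinarith
  have hx : 0 ≤ 1 - τ := by linarith
  have B1 : 1 + τ - 2 * α' - 2 * (β' * q) - 2 * (1 - σ) * μ
      ≤ 3 + τ - 2 * α' - 9 / 20 * β' := by
    have q1 : β' * (9 / 40) ≤ β' * q := mul_le_mul_of_nonneg_left hq hβ'
    have q2 : (1 - σ) * (-1) ≤ (1 - σ) * μ := mul_le_mul_of_nonneg_left hμ (by linarith)
    nlinarith
  have B2 := mul_le_mul_of_nonneg_left B1 hx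
  have B3 : (1 - τ) * (3 + τ - 2 * α' - 9 / 20 * β') ≤ 3 - 2 * α' - 9 / 20 * β' := by
    have : 0 ≤ τ * (2 + τ - 2 * α' - 9 / 20 * β') := by
      apply mul_nonneg hτ
      linarith
    nlinarith
  linarith

/-- The arithmetic of the small case. -/
theorem arith_small (α β τ α' β' σ p q μ om : ℝ) (hα : 0 ≤ α) (hβ : 0 ≤ β) (hab : α + β ≤ 1)
    (hτ : 0 ≤ τ) (hτ1 : τ ≤ 1) (hα' : 0 ≤ α') (hβ' : 0 ≤ β')
    (hσ : 0 ≤ σ) (hσ1 : σ ≤ 1) (hp : 0 ≤ p) (hq : 0 ≤ q) (hμ : -1 ≤ μ)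
    (hom : om ≤ 9 / 20) (hb : β * (21 / 20) ≤ om + τ + α) :
    (1 - α) ^ 2 + 441 / 400 * β ^ 2 - 2 * (1 - α) * (β * p)
      + (1 - τ) * (1 + τ - 2 * α' - 2 * (β' * q) - 2 * (1 - σ) * μ) ≤ 1681 / 400 := by
  have h1a : 0 ≤ 1 - α := by linarith
  have A0 : 0 ≤ (1 - α) * (β * p) := mul_nonneg h1a (mul_nonneg hβ hp)
  have hx : 0 ≤ 1 - τ := by linarith
  have B1 : 1 + τ - 2 * α' - 2 * (β' * q) - 2 * (1 - σ) * μ ≤ 3 + τ := by
    have q1 : 0 ≤ β' * q := mul_nonneg hβ' hq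
    have q2 : (1 - σ) * (-1) ≤ (1 - σ) * μ := mul_le_mul_of_nonneg_left hμ (by linarith)
    nlinarith
  have B2 := mul_le_mul_of_nonneg_left B1 hx
  have C : (1 - α) ^ 2 + 441 / 400 * β ^ 2 + (1 - τ) * (3 + τ) ≤ 1681 / 400 := by
    have c0 : 0 ≤ β * (21 / 20) := by positivity
    rcases le_total (α + τ) (11 / 20) with h | h
    · have c1 : β * (21 / 20) ≤ 9 / 20 + τ + α := by linarith
      have c2 : (β * (21 / 20)) ^ 2 ≤ (9 / 20 + τ + α) ^ 2 := pow_le_pow_left₀ c0 c1 2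
      have c3 : 0 ≤ α * (11 / 20 - α - τ) := mul_nonneg hα (by linarith)
      nlinarith
    · have c1 : β ^ 2 ≤ (1 - α) ^ 2 := pow_le_pow_left₀ hβ (by linarith) 2
      rcases le_total τ (11 / 20) with h' | h'
      · have c2 : (1 - α) ^ 2 ≤ (9 / 20 + τ) ^ 2 := pow_le_pow_left₀ h1a (by linarith) 2
        nlinarith
      · have c2 : (1 - α) ^ 2 ≤ 1 := by nlinarith
        nlinarith
  linarith

/-- The reach of five links of lengths `1, 21/20, 1, 21/20, 1`. -/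
theorem reach205 (v1 v2 v3 v4 v5 v6 : V)
    (h12 : ‖v1 - v2‖ = 1) (h23 : ‖v3 - v2‖ = 21 / 20) (h34 : ‖v4 - v3‖ = 1)
    (h45 : ‖v4 - v5‖ = 21 / 20) (h56 : ‖v6 - v5‖ = 1)
    (hr : ∃ α β τ : ℝ, 0 ≤ α ∧ 0 ≤ β ∧ α + β ≤ 1 ∧ 0 ≤ τ ∧ τ ≤ 1 ∧
      v5 + τ • (v6 - v5) = v2 + α • (v1 - v2) + β • (v3 - v2))
    (hp : ∃ σ α β : ℝ, 0 ≤ α ∧ 0 ≤ β ∧ α + β ≤ 1 ∧ 0 ≤ σ ∧ σ ≤ 1 ∧
      v2 + σ • (v1 - v2) = v5 + α • (v6 - v5) + β • (v4 - v5))
    (hp5 : ∃ s e4 e5 : ℝ, 0 ≤ s ∧ s ≤ 1 ∧ 0 ≤ e4 ∧ 0 ≤ e5 ∧ e4 + e5 ≤ 1 ∧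
      v2 + s • (v1 - v2) = v3 + e4 • (v4 - v3) + e5 • (v5 - v3))
    (hr2 : ∃ s e3 e2 : ℝ, 0 ≤ s ∧ s ≤ 1 ∧ 0 ≤ e3 ∧ 0 ≤ e2 ∧ e3 + e2 ≤ 1 ∧
      v5 + s • (v6 - v5) = v4 + e3 • (v3 - v4) + e2 • (v2 - v4)) :
    ‖v6 - v1‖ ≤ 41 / 20 := by
  rcases half5 v1 v2 v3 v4 v5 v6 h12 h23 h34 h56 hr hp5 with h | ⟨hna, hna2⟩
  · linarith
  have hp' : ∃ α β τ : ℝ, 0 ≤ α ∧ 0 ≤ β ∧ α + β ≤ 1 ∧ 0 ≤ τ ∧ τ ≤ 1 ∧
      v2 + τ • (v1 - v2) = v5 + α • (v6 - v5) + β • (v4 - v5) := by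
    obtain ⟨σ, α, β, h1, h2, h3, h4, h5, h6⟩ := hp
    exact ⟨α, β, σ, h1, h2, h3, h4, h5, h6⟩
  rcases half5 v6 v5 v4 v3 v2 v1 h56 h45 (by rw [norm_sub_rev]; exact h34) h12
    hp' hr2 with h | ⟨hmb, hmb2⟩
  · rw [norm_sub_rev]; linarith
  obtain ⟨α, β, τ, hα, hβ, hab, hτ, hτ1, hr⟩ := hr
  obtain ⟨σ, α', β', hα', hβ', hab', hσ, hσ1, hp⟩ := hp
  obtain ⟨n, hn⟩ : ∃ n, n = v1 - v2 := ⟨_, rfl⟩
  obtain ⟨a, ha⟩ : ∃ a, a = v3 - v2 := ⟨_, rfl⟩
  obtain ⟨m, hm⟩ : ∃ m, m = v6 - v5 := ⟨_, rfl⟩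
  obtain ⟨c, hc⟩ : ∃ c, c = v4 - v5 := ⟨_, rfl⟩
  obtain ⟨w, hw⟩ : ∃ w, w = v5 - v2 := ⟨_, rfl⟩
  rw [← hn, ← ha] at hna hna2
  rw [← hm, ← hc] at hmb hmb2
  rw [← hn, ← ha, ← hm] at hr
  rw [← hn, ← hc, ← hm] at hp
  rw [← hw] at hna2
  rw [show v2 - v5 = -w by rw [hw]; abel, norm_neg] at hmb2
  have nn : inner ℝ n n = 1 := by
    rw [real_inner_self_eq_norm_sq, hn, h12]; norm_num
  have aa : inner ℝ a a = 441 / 400 := by
    rw [real_inner_self_eq_norm_sq, ha, h23]; norm_num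
  have cc : inner ℝ c c = 441 / 400 := by
    rw [real_inner_self_eq_norm_sq, hc, h45]; norm_num
  have mm : inner ℝ m m = 1 := by
    rw [real_inner_self_eq_norm_sq, hm, h56]; norm_num
  have hr' : w + τ • m = α • n + β • a := by
    have e1 : w + τ • m = (v5 + τ • m) - v2 := by rw [hw]; abel
    rw [e1, hr]; abel
  have hp' : σ • n = w + α' • m + β' • c := by
    have e1 : σ • n = (v2 + σ • n) - v2 := by abel
    rw [e1, hp, hw]; abel
  have hD : v6 - v1 = w + m - n := by rw [hw, hm, hn]; abel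
  have hnu : -1 ≤ inner ℝ n m := by
    have h1 := abs_real_inner_le_norm n m
    rw [show ‖n‖ = 1 by rw [hn]; exact h12, show ‖m‖ = 1 by rw [hm]; exact h56, mul_one] at h1
    exact (abs_le.1 h1).1
  have E1 := est n a m c w α β τ α' β' σ nn aa mm hr' hp'
  have E2 := est m c n a (-w) α' β' σ α β τ mm cc nn
    (by
      have e1 : -w + σ • n = -w + (w + α' • m + β' • c) := by rw [hp']
      rw [e1]; abel)
    (by
      have e1 : τ • m = -w + (w + τ • m) := by abel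
      rw [e1, hr']; abel)
  have hDD : ‖-w + n - m‖ = ‖w + m - n‖ := by
    rw [show -w + n - m = -(w + m - n) by abel, norm_neg]
  rw [hDD, real_inner_comm n m] at E2
  have main : ‖w + m - n‖ ^ 2 ≤ 1681 / 400 := by
    rcases le_total ‖w‖ (9 / 20) with hs | hl
    · rw [E1]
      refine arith_small α β τ α' β' σ _ _ _ ‖w‖ hα hβ hab hτ hτ1 hα' hβ' hσ hσ1 hna hmb hnu hs ?_
      have e1 : β • a = w + τ • m - α • n := by rw [hr']; abel
      have e2 : β * (21 / 20) = ‖β • a‖ := by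
        rw [norm_smul, ha, h23, Real.norm_eq_abs, abs_of_nonneg hβ]
      rw [e2, e1]
      refine (norm_sub_le _ _).trans ?_
      have e3 : ‖w + τ • m‖ ≤ ‖w‖ + τ := by
        refine (norm_add_le _ _).trans ?_
        rw [norm_smul, hm, h56, mul_one, Real.norm_eq_abs, abs_of_nonneg hτ]
      have e4 : ‖α • n‖ = α := by
        rw [norm_smul, hn, h12, mul_one, Real.norm_eq_abs, abs_of_nonneg hα]
      linarith
    · have L1 := arith_large α β τ α' β' σ _ _ _ hα hβ hab hτ hτ1 hα' hβ' hab' hσ hσ1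
        (hna2 hl) (hmb2 hl) hnu
      have L2 := arith_large α' β' σ α β τ _ _ _ hα' hβ' hab' hσ hσ1 hα hβ hab hτ hτ1
        (hmb2 hl) (hna2 hl) hnu
      rw [← E1] at L1
      rw [← E2] at L2
      linarith
  rw [hD]
  have h0 := norm_nonneg (w + m - n)
  nlinarith

end Pool.Agent.Helper68.R205
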